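import Pool.Agent.H64.LB.Targets

/-!
# The morphism `VV 1 × QS → EC × PN 1` is algebraic
-/

open Topology Set MvPolynomial
open Pool.Agent.H64.LB

namespace Pool.Agent.H80.LB

/-- first factor -/
noncomputable def xP : Fin 3 → Pol 5 := ![X 1, X 2, X 0]

/-- second factor, first form -/
noncomputable def yA : Fin 2 → Pol 5 := ![X 5 + X 0, X 3 - C Complex.I * X 4]

/-- second factor, second form -/
noncomputable def yB : Fin 2 → Pol 5 := ![X 3 + C Complex.I * X 4, X 0 - X 5]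

/-- the product of the two factors -/
noncomputable def FF (y : Fin 2 → Pol 5) (k : Fin 6) : Pol 5 :=
  xP ⟨(k : ℕ) / 2, by omega⟩ * y ⟨(k : ℕ) % 2, by omega⟩

theorem xP_homog (i : Fin 3) : (xP i).IsHomogeneous 1 := by
  fin_cases i <;> exact isHomogeneous_X _ _

theorem yA_homog (i : Fin 2) : (yA i).IsHomogeneous 1 := by
  fin_cases i
  · exact (isHomogeneous_X _ _).add (isHomogeneous_X _ _)
  · exact (isHomogeneous_X _ _).sub (by
      simpa using (isHomogeneous_C (Fin 6) Complex.I).mul (isHomogeneous_X ℂ (4 : Fin 6)))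

theorem yB_homog (i : Fin 2) : (yB i).IsHomogeneous 1 := by
  fin_cases i
  · exact (isHomogeneous_X _ _).add (by
      simpa using (isHomogeneous_C (Fin 6) Complex.I).mul (isHomogeneous_X ℂ (4 : Fin 6)))
  · exact (isHomogeneous_X _ _).sub (isHomogeneous_X _ _)

theorem FF_homog {y : Fin 2 → Pol 5} (hy : ∀ i, (y i).IsHomogeneous 1) (k : Fin 6) :
    (FF y k).IsHomogeneous 2 := by
  exact (xP_homog ⟨(k : ℕ) / 2, by omega⟩).mul (hy ⟨(k : ℕ) % 2, by omega⟩)

theorem eval_xP (v : Fin 6 → ℂ) : (fun i => eval v (xP i)) = ![v 1, v 2, v 0] := by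
  funext i
  fin_cases i <;> simp [xP]

theorem eval_yA (v : Fin 6 → ℂ) :
    (fun i => eval v (yA i)) = ![v 5 + v 0, v 3 - Complex.I * v 4] := by
  funext i
  fin_cases i <;> simp [yA]

theorem eval_yB (v : Fin 6 → ℂ) :
    (fun i => eval v (yB i)) = ![v 3 + Complex.I * v 4, v 0 - v 5] := by
  funext i
  fin_cases i <;> simp [yB]

/-- The eigenline in the second form. -/
theorem line_B (z : QS) (h : 1 - z.1 2 ≠ 0) (hne : ![z.1 0 + Complex.I * z.1 1, 1 - z.1 2] ≠ 0) :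
    QS.line z = pt ⟨![z.1 0 + Complex.I * z.1 1, 1 - z.1 2], hne⟩ := by
  unfold QS.line
  split_ifs with h1
  · have hz : z.1 0 ^ 2 + z.1 1 ^ 2 + z.1 2 ^ 2 = 1 := by
      have := z.2
      simpa [Fin.sum_univ_three] using this
    have key : (z.1 0 + Complex.I * z.1 1) * (z.1 0 - Complex.I * z.1 1) =
        (z.1 2 + 1) * (1 - z.1 2) := by
      linear_combination hz - (z.1 1) ^ 2 * Complex.I_sq
    refine Quotient.sound ⟨(z.1 0 + Complex.I * z.1 1) / (z.1 2 + 1), ?_, ?_⟩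
    · refine div_ne_zero ?_ h1
      intro h0
      rw [h0, zero_mul] at key
      exact (mul_ne_zero h1 h) key.symm
    · funext i
      fin_cases i
      · simp only [Fin.zero_eta, Pi.smul_apply, smul_eq_mul, Matrix.cons_val_zero]
        field_simp
      · simp only [Fin.mk_one, Pi.smul_apply, smul_eq_mul, Matrix.cons_val_one]
        rw [div_mul_eq_mul_div, eq_div_iff h1]
        simp only [Matrix.cons_val_fin_one]
        rw [key]; ring
  · rfl

theorem rgj (hCHT : T_CHT) (hSEG : T_SEG) (hDQ : T_DQ) (hPL1 : T_PL1) : T_RGJ := by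
  obtain ⟨e₁, he₁⟩ := hDQ
  obtain ⟨e₂, he₂⟩ := hCHT 5 SDQ
  obtain ⟨e₃, he₃⟩ := hSEG
  have hline := hPL1.1
  set J : C(VV 1 × QS, EC × PN 1) := VV.toEC.prodMap (⟨QS.line, hline⟩ : C(QS, PN 1)) with hJ
  let Φ : C(affSet 5 SDQ, EPset) :=
    ((⟨e₃, e₃.continuous⟩ : C(EC × PN 1, EPset)).comp J).comp
      ((⟨e₁.symm, e₁.symm.continuous⟩ : C(Zeros SDQ, VV 1 × QS)).comp
        (⟨e₂.symm, e₂.symm.continuous⟩ : C(affSet 5 SDQ, Zeros SDQ)))
  have hΦ : ∀ (p : VV 1 × QS) (hp : (chart (ptDQ p) : PN 5) ∈ affSet 5 SDQ) (x : NZ 2)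
      (y : NZ 1), (VV.toEC p.1).1 = pt x → QS.line p.2 = pt y →
        (Φ ⟨chart (ptDQ p), hp⟩).1 = (pt (segre x y) : PN 5) := by
    intro p hp x y hx hy
    have h1 : e₂.symm ⟨chart (ptDQ p), hp⟩ = e₁ p := by
      rw [Homeomorph.symm_apply_eq]
      apply Subtype.ext
      rw [he₂, he₁]
    have h2 : Φ ⟨chart (ptDQ p), hp⟩ = e₃ (J p) := by
      change e₃ (J (e₁.symm (e₂.symm ⟨chart (ptDQ p), hp⟩))) = _
      rw [h1, Homeomorph.symm_apply_apply]
    rw [h2]
    exact he₃ x y (J p) hx hy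
  -- the general form of the points
  have hpts : ∀ v : NZ 5, pt v ∈ affSet 5 SDQ → ∃ (p : VV 1 × QS) (t : ℂ), t ≠ 0 ∧
      pt v = chart (ptDQ p) ∧ v.1 0 = t ∧ v.1 1 = t * p.1.1.1 ∧ v.1 2 = t * p.1.1.2 0 ∧
      v.1 3 = t * p.2.1 0 ∧ v.1 4 = t * p.2.1 1 ∧ v.1 5 = t * p.2.1 2 := by
    intro v hv
    obtain ⟨x, hx, hvx⟩ := hv
    set p := e₁.symm ⟨x, hx⟩ with hp
    have hpx : ptDQ p = x := by
      rw [← he₁, hp, Homeomorph.apply_symm_apply]
    obtain ⟨c, hc, hcv⟩ := Quotient.exact hvx.symm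
    have hcv' : ∀ i : Fin 6, v.1 i = c * (Fin.cons 1 x : Fin 6 → ℂ) i := by
      intro i
      have := congrFun hcv i
      simpa using this
    refine ⟨p, c, hc, ?_, ?_, ?_, ?_, ?_, ?_, ?_⟩
    · rw [hpx]; exact hvx
    · rw [hcv' 0]; simp
    · rw [hcv' 1, ← hpx]
      change c * (ptDQ p 0) = _
      rfl
    · rw [hcv' 2, ← hpx]
      change c * (ptDQ p 1) = _
      rfl
    · rw [hcv' 3, ← hpx]
      change c * (ptDQ p 2) = _
      rfl
    · rw [hcv' 4, ← hpx]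
      change c * (ptDQ p 3) = _
      rfl
    · rw [hcv' 5, ← hpx]
      change c * (ptDQ p 4) = _
      rfl
  have hECpt : ∀ (v : NZ 5) (p : VV 1 × QS) (t : ℂ), t ≠ 0 → v.1 0 = t → v.1 1 = t * p.1.1.1 →
      v.1 2 = t * p.1.1.2 0 → ∃ hne : ![v.1 1, v.1 2, v.1 0] ≠ 0,
        (VV.toEC p.1).1 = pt ⟨![v.1 1, v.1 2, v.1 0], hne⟩ := by
    intro v p t ht h0 h1 h2
    have hne : ![v.1 1, v.1 2, v.1 0] ≠ 0 := by
      intro h
      have := congrFun h 2
      simp only [Pi.zero_apply] at this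
      apply ht
      rw [← h0]
      exact this
    refine ⟨hne, Quotient.sound ⟨t, ht, ?_⟩⟩
    funext i
    fin_cases i
    · simpa using h1
    · simpa using h2
    · simpa using h0
  -- the general step
  have hstep : ∀ (y : Fin 2 → Pol 5) (v : NZ 5) (hv : pt v ∈ affSet 5 SDQ) (p : VV 1 × QS) (t : ℂ),
      t ≠ 0 → pt v = chart (ptDQ p) → v.1 0 = t → v.1 1 = t * p.1.1.1 →
      v.1 2 = t * p.1.1.2 0 → ∀ hy : (fun i => eval v.1 (y i)) ≠ 0,
      QS.line p.2 = pt ⟨fun i => eval v.1 (y i), hy⟩ →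
      ∃ h : (fun k => eval v.1 (FF y k)) ≠ 0,
        (Φ ⟨pt v, hv⟩ : PN 5) = pt ⟨fun k => eval v.1 (FF y k), h⟩ := by
    intro y v hv p t ht hvp h0 h1 h2 hy hl
    obtain ⟨hne, hEC⟩ := hECpt v p t ht h0 h1 h2
    have hseg : (segre ⟨![v.1 1, v.1 2, v.1 0], hne⟩ ⟨fun i => eval v.1 (y i), hy⟩).1 =
        fun k => eval v.1 (FF y k) := by
      funext k
      have e := congrFun (eval_xP v.1) ⟨(k : ℕ) / 2, by omega⟩
      simp only [segre, FF, map_mul]
      rw [← e]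
    have hF : (fun k => eval v.1 (FF y k)) ≠ 0 := by
      rw [← hseg]
      exact (segre ⟨![v.1 1, v.1 2, v.1 0], hne⟩ ⟨fun i => eval v.1 (y i), hy⟩).2
    refine ⟨hF, ?_⟩
    have hp : (chart (ptDQ p) : PN 5) ∈ affSet 5 SDQ := by rw [← hvp]; exact hv
    have e1 : (⟨pt v, hv⟩ : affSet 5 SDQ) = ⟨chart (ptDQ p), hp⟩ := Subtype.ext hvp
    rw [e1, hΦ p hp _ _ hEC hl]
    congr 1
    exact Subtype.ext hseg
  have hreg : ∀ v₀ : NZ 5, pt v₀ ∈ affSet 5 SDQ →
      ∃ (d : ℕ) (F : Fin 6 → Pol 5) (g : Pol 5),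
        (∀ i, (F i).IsHomogeneous d) ∧ Homog g ∧ eval v₀.1 g ≠ 0 ∧
        ∀ (v : NZ 5) (hv : pt v ∈ affSet 5 SDQ), eval v.1 g ≠ 0 →
          ∃ h : (fun i => eval v.1 (F i)) ≠ 0,
            (Φ ⟨pt v, hv⟩ : PN 5) = pt ⟨fun i => eval v.1 (F i), h⟩ := by
    intro v₀ hv₀
    obtain ⟨p₀, t₀, ht₀, -, h00, -, -, -, -, h05⟩ := hpts v₀ hv₀
    by_cases hcase : eval v₀.1 (X 5 + X 0 : Pol 5) ≠ 0
    · refine ⟨2, FF yA, X 5 + X 0, FF_homog yA_homog,
        ⟨1, (isHomogeneous_X _ _).add (isHomogeneous_X _ _)⟩, hcase, ?_⟩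
      intro v hv hg
      obtain ⟨p, t, ht, hvp, h0, h1, h2, h3, h4, h5⟩ := hpts v hv
      have hg' : v.1 5 + v.1 0 ≠ 0 := by simpa using hg
      have hz : p.2.1 2 + 1 ≠ 0 := by
        intro h
        apply hg'
        rw [h5, h0]
        linear_combination t * h
      have hy : (fun i => eval v.1 (yA i)) ≠ 0 := by
        rw [eval_yA]
        intro h
        exact hg' (congrFun h 0)
      refine hstep yA v hv p t ht hvp h0 h1 h2 hy ?_
      unfold QS.line
      rw [dif_pos hz]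
      refine Quotient.sound ⟨t, ht, ?_⟩
      change (fun i => eval v.1 (yA i)) = _
      rw [eval_yA]
      funext i
      fin_cases i
      · simp only [Fin.zero_eta, Pi.smul_apply, smul_eq_mul, Matrix.cons_val_zero]
        rw [h5, h0]; ring
      · simp only [Fin.mk_one, Pi.smul_apply, smul_eq_mul, Matrix.cons_val_one,
          Matrix.cons_val_fin_one]
        rw [h3, h4]; ring
    · have hcase' : eval v₀.1 (X 0 - X 5 : Pol 5) ≠ 0 := by
        have h1 : v₀.1 5 + v₀.1 0 = 0 := by simpa using hcase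
        intro h
        have h2 : v₀.1 0 - v₀.1 5 = 0 := by simpa using h
        apply ht₀
        rw [← h00]
        linear_combination (1 / 2 : ℂ) * h1 + (1 / 2 : ℂ) * h2
      refine ⟨2, FF yB, X 0 - X 5, FF_homog yB_homog,
        ⟨1, (isHomogeneous_X _ _).sub (isHomogeneous_X _ _)⟩, hcase', ?_⟩
      intro v hv hg
      obtain ⟨p, t, ht, hvp, h0, h1, h2, h3, h4, h5⟩ := hpts v hv
      have hg' : v.1 0 - v.1 5 ≠ 0 := by simpa using hg
      have hz : 1 - p.2.1 2 ≠ 0 := by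
        intro h
        apply hg'
        rw [h5, h0]
        linear_combination t * h
      have hy : (fun i => eval v.1 (yB i)) ≠ 0 := by
        rw [eval_yB]
        intro h
        exact hg' (congrFun h 1)
      have hne : ![p.2.1 0 + Complex.I * p.2.1 1, 1 - p.2.1 2] ≠ 0 := fun h => hz (congrFun h 1)
      refine hstep yB v hv p t ht hvp h0 h1 h2 hy ?_
      rw [line_B p.2 hz hne]
      refine Quotient.sound ⟨t, ht, ?_⟩
      change (fun i => eval v.1 (yB i)) = _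
      rw [eval_yB]
      funext i
      fin_cases i
      · simp only [Fin.zero_eta, Pi.smul_apply, smul_eq_mul, Matrix.cons_val_zero]
        rw [h3, h4]; ring
      · simp only [Fin.mk_one, Pi.smul_apply, smul_eq_mul, Matrix.cons_val_one,
          Matrix.cons_val_fin_one]
        rw [h5, h0]; ring
  exact ⟨⟨Φ, hreg⟩, hΦ⟩

end Pool.Agent.H80.LB
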